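import Pool.Agent.U360.AS.Final
import Pool.Agent.U360.RN.Law

/-!
# MP_dd9835_nt: dependence of Rubin's conjecture on `S`; one `S` decides it for all `S`, `r`, `T`

Let `H / F` be a finite abelian extension of number fields with group `G`. `RubinData F H G` are the
data of Q1 without `T`: `S` (the archimedean places and a finite set of prime ideals which contains
the ramified ones), the places `w_1, ..., w_r` over the places of `S` which split completely,
`#S ≥ r + 1`, the Frobenius automorphisms, the functions `L_S(χ, s)`. `D.Rubin T` is the statement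
of Q1 for the data `D` and `T`, `D.Allowed T` the condition on `T`. `RubinUpTo N D T` says that `N η`
belongs to Rubin's lattice, `η` the element of Q1; `RubinUpTo 1 D T` is Q1.

* Let `S₁` and `S₂` be the sets of `D₁` and `D₂`, and let `S₂` contain the elements of `S₁` which do
  not split completely in `H`. There are no conditions on the elements which split completely, and
  `r₁` and `r₂` are arbitrary. If `RubinUpTo N D₁ T` holds for all admissible `T`, then
  `RubinUpTo (N * c) D₂ T` holds for all admissible `T`; here `c = classFactor H S₁ S₂` is the index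
  of the group generated by the classes of the prime ideals of `𝓞 H` over `S₁` and over the elements
  of `S₂` which do not split completely, in the group generated by the classes of the prime ideals
  over `S₁` and `S₂`. The number `c` divides the class number of `H`. It is one if the classes of the
  prime ideals over `S₂` belong to the first group. So Q1 for `S` and all `T` depends only on the
  elements of `S` which do not split completely and on the group of the classes of the prime ideals
  over `S`.

`RubinAll D₁`: Q1 holds for all data `D'` (all `S'`, all `r`, all choices of the `w_i`) such that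
`S'` contains the prime ideals of the set `S₁` of `D₁` which do not split completely, and for all
admissible `T`.

* There is a set `V₀` of at most `log₂ h_H` prime ideals which split completely in `H` such that
  `S ∪ V₀` generates, for all `S`: the classes of the prime ideals of `𝓞 H` over it generate a group
  which contains the classes of all prime ideals over prime ideals which split completely.
* If `S₁` generates, then `RubinAll D₁` is equivalent to Q1 for `D₁` and the sets `T = {v}`,
  `v ∈ V`, for a finite set `V` of prime ideals, which may be chosen outside any finite set.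
  If `RubinAll D₁` is false, Q1 is false for `D₁` and `T = {v}` for a positive proportion of all
  prime ideals `v`.
* If the unramified prime ideals in `S₁` split completely, `RubinAll D₁` is Q1 for `H / F`, for all
  `S`, `r`, `w_i`, `T`.
-/

set_option autoImplicit false

open NumberField IsDedekindDomain

noncomputable section

namespace Pool.Agent.Results.MP_dd9835_nt.AllSAllT

open Pool.Agent.K3h30.RS Pool.Agent.U360.RS Pool.Agent.U360.AS Pool.Agent.U360.PO
  Pool.Agent.U360.RN

/-- Dependence of Rubin's conjecture on `S`; it is decided by one `S₁` and finitely many `{v}`. -/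
theorem result (F H G : Type) [Field F] [NumberField F] [Field H] [NumberField H] [Algebra F H]
    [CommGroup G] [Finite G] [MulSemiringAction G H] [IsGaloisGroup G F H] :
    (∀ (N : ℕ) (D₁ D₂ : RubinData F H G), nonSplit H D₁.S ⊆ nonSplit H D₂.S →
      (∀ T, D₁.Allowed T → RubinUpTo N D₁ T) →
      ∀ T, D₂.Allowed T → RubinUpTo (N * classFactor H D₁.S D₂.S) D₂ T) ∧
    (∀ (D : RubinData F H G) (T : Finset (HeightOneSpectrum (𝓞 F))),
      RubinUpTo 1 D T ↔ D.Rubin T) ∧
    (∀ S₁ S₂ : Finset (HeightOneSpectrum (𝓞 F)),
      classFactor H S₁ S₂ ∣ NumberField.classNumber H ∧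
      (clsGroup H (S₂ : Set (HeightOneSpectrum (𝓞 F))) ≤
        clsGroup H ((S₁ : Set (HeightOneSpectrum (𝓞 F))) ∪ nonSplit H S₂) →
        classFactor H S₁ S₂ = 1)) ∧
    (∃ V₀ : Finset (HeightOneSpectrum (𝓞 F)), (∀ v ∈ V₀, SplitsIn H v) ∧
      2 ^ V₀.card ≤ NumberField.classNumber H ∧ ∀ D : RubinData F H G, ∃ D₁ : RubinData F H G,
        (∀ v, v ∈ D₁.S ↔ v ∈ D.S ∨ v ∈ V₀) ∧ Generates H D₁.S) ∧
    ∀ D₁ : RubinData F H G, Generates H D₁.S →
      (∀ E : Finset (HeightOneSpectrum (𝓞 F)), ∃ V : Finset (HeightOneSpectrum (𝓞 F)),
        Disjoint E V ∧ (∀ v ∈ V, D₁.Allowed {v}) ∧ ((∀ v ∈ V, D₁.Rubin {v}) ↔ RubinAll D₁)) ∧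
      (RubinAll D₁ ∨ PosProportion fun v => D₁.Allowed {v} ∧ ¬ D₁.Rubin {v}) ∧
      ((∀ v ∈ D₁.S, Squarefree (v.asIdeal.map (algebraMap (𝓞 F) (𝓞 H))) → SplitsIn H v) →
        (RubinAll D₁ ↔ ∀ (D' : RubinData F H G) (T : Finset (HeightOneSpectrum (𝓞 F))),
          D'.Allowed T → D'.Rubin T)) := by
  classical
  refine ⟨fun N D₁ D₂ hns h₁ T hT => rubinUpTo_law N D₁ D₂ hns h₁ T hT, rubinUpTo_one,
    fun S₁ S₂ => ⟨classFactor_dvd S₁ S₂, classFactor_eq_one⟩, ?_,
    fun D₁ hD => ⟨fun E => ?_, ?_, fun hr => ⟨fun h D' T hT => ?_, fun h D' _ => h D'⟩⟩⟩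
  · obtain ⟨V₀, h1, h2, h3⟩ := exists_V0 F H G
    refine ⟨V₀, fun v hv => (spl_iff_splitsIn v).1 (h1 v hv), ?_, fun D => ?_⟩
    · rw [NumberField.classNumber, ← Nat.card_eq_fintype_card]
      exact h2
    · obtain ⟨D₁, hD₁⟩ := exists_data D V₀
      refine ⟨D₁, fun v => by rw [hD₁, Finset.mem_union], ?_⟩
      rw [← good_iff (G := G), hD₁]
      intro v hv P hP
      refine Subgroup.closure_mono (Set.image_mono ?_) (h3 v hv P hP)
      rintro Q ⟨u, hu, h⟩
      exact ⟨u, Finset.mem_coe.2 (Finset.mem_union_right _ (Finset.mem_coe.1 hu)), h⟩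
  · obtain ⟨V, hV1, hV2, hV3⟩ := finite_test D₁ E
    refine ⟨V, hV1, hV2, fun h => rubinAll_of D₁ hD (hV3 h), fun h v hv => ?_⟩
    exact h D₁ (fun u hu hu' => absurd hu hu') {v} (hV2 v hv)
  · rcases dich D₁ with h | h
    · exact Or.inl (rubinAll_of D₁ hD h)
    · exact Or.inr h
  · exact h D' (fun v hv hv' => hr v hv (D'.unramified v hv')) T hT

end Pool.Agent.Results.MP_dd9835_nt.AllSAllT
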