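import Pool.Agent.U360.RS.Main

/-!
# MP_dd9835_nt: the Frobenius classes of one finite extension decide Rubin's conjecture

Let `H / F` be a finite abelian extension of number fields with group `G`, `S` a finite set of
places of `F` which contains the archimedean and the ramified ones, `v_1, ..., v_r` the places of
`S` which split completely, `#S ≥ r + 1`, `w_i` a place over `v_i` (`RubinData`). `Rubin T` is the
statement of Q1 for the set `T`, `Allowed T` the condition on `T` (disjoint from `S`, two prime
ideals of different residue characteristics or one of residue characteristic `> [F : ℚ] + 1`).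

There are a finite Galois extension `L / F` and a finite set `bad` of prime ideals, such that all
`{v}`, `v ∉ bad`, are admissible, with the following properties.

* For every `Φ ∈ Gal(L / F)`, `Rubin {v}` holds for all `v ∉ bad` with Frobenius automorphism `Φ`
  in `L`, or for none of them.
* Every set `V` of prime ideals outside `bad` which meets all the Frobenius classes of `L / F`
  decides the conjecture: `Rubin {v}` for the `v ∈ V` is equivalent to `Rubin T` for all admissible
  `T`.
* Such a set `V` can be chosen finite, with at most `[L : F]` elements, and disjoint from any given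
  finite set.
-/

set_option autoImplicit false

open NumberField IsDedekindDomain Filter Topology

noncomputable section

namespace Pool.Agent.Results.MP_dd9835_nt.FiniteTest

open Pool.Agent.K3h30.RS Pool.Agent.U360.RS

/-- Rubin's conjecture for all `T` is decided by the sets `{v}`, `v ∈ V`, for every set `V` which
meets all the Frobenius classes of a fixed finite Galois extension `L / F`. -/
theorem result {F H G : Type} [Field F] [NumberField F] [Field H] [NumberField H] [Algebra F H]
    [CommGroup G] [Finite G] [MulSemiringAction G H] [IsGaloisGroup G F H]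
    (D : RubinData F H G) :
    ∃ (L : Type) (_ : Field L) (_ : NumberField L) (_ : Algebra F L)
      (bad : Finset (HeightOneSpectrum (𝓞 F))), IsGalois F L ∧
      (∀ v, v ∉ bad → D.Allowed {v}) ∧
      (∀ Φ : L ≃ₐ[F] L, (∀ v, v ∉ bad → HasFrob Φ v → D.Rubin {v}) ∨
        (∀ v, v ∉ bad → HasFrob Φ v → ¬ D.Rubin {v})) ∧
      (∀ V : Set (HeightOneSpectrum (𝓞 F)), (∀ v ∈ V, v ∉ bad) →
        (∀ Φ : L ≃ₐ[F] L, ∃ v ∈ V, HasFrob Φ v) →
        ((∀ v ∈ V, D.Rubin {v}) ↔
          ∀ T : Finset (HeightOneSpectrum (𝓞 F)), D.Allowed T → D.Rubin T)) ∧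
      (∀ E : Finset (HeightOneSpectrum (𝓞 F)), ∃ V : Finset (HeightOneSpectrum (𝓞 F)),
        V.card ≤ Module.finrank F L ∧ Disjoint E V ∧ (∀ v ∈ V, v ∉ bad) ∧
        ∀ Φ : L ≃ₐ[F] L, ∃ v ∈ V, HasFrob Φ v) := by
  classical
  obtain ⟨L, i1, i2, i3, bad, hgal, hbad, hL⟩ := frobenian D
  have hone : ∀ (Φ : L ≃ₐ[F] L) (v v' : HeightOneSpectrum (𝓞 F)), v ∉ bad → v' ∉ bad →
      HasFrob Φ v → HasFrob Φ v' → (D.Rubin {v} ↔ D.Rubin {v'}) := by
    intro Φ v v' hv hv' h h'
    exact hL {v} {v'} (Finset.disjoint_singleton_right.2 hv)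
      (Finset.disjoint_singleton_right.2 hv') (sameFrob_singleton h h')
  refine ⟨L, i1, i2, i3, bad, hgal, hbad, ?_, ?_, ?_⟩
  · intro Φ
    by_cases h : ∃ v, v ∉ bad ∧ HasFrob Φ v ∧ D.Rubin {v}
    · obtain ⟨v, hv, hΦ, hr⟩ := h
      exact Or.inl fun v' hv' hΦ' => (hone Φ v v' hv hv' hΦ hΦ').1 hr
    · exact Or.inr fun v hv hΦ hr => h ⟨v, hv, hΦ, hr⟩
  · intro V hV hVΦ
    refine ⟨fun h => ?_, fun h v hv => h _ (hbad v (hV v hv))⟩
    rcases dich D with h1 | h1
    · exact h1
    · exfalso
      obtain ⟨x, ⟨-, hx⟩, hxb⟩ := posProportion_exists h1 bad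
      obtain ⟨Φ, hΦ⟩ := exists_hasFrob F L x
      obtain ⟨v, hv, hvΦ⟩ := hVΦ Φ
      exact hx ((hone Φ x v hxb (hV v hv) hΦ hvΦ).2 (h v hv))
  · intro E
    choose v hv hv' using fun Φ : L ≃ₐ[F] L => exists_prime F L Φ (bad ∪ E)
    refine ⟨Finset.univ.image v, ?_, ?_, ?_, ?_⟩
    · refine Finset.card_image_le.trans ?_
      rw [Finset.card_univ, ← Nat.card_eq_fintype_card, IsGalois.card_aut_eq_finrank]
    · rw [Finset.disjoint_left]
      rintro x hx hx'
      obtain ⟨Φ, -, rfl⟩ := Finset.mem_image.1 hx'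
      exact hv Φ (Finset.mem_union_right _ hx)
    · rintro x hx
      obtain ⟨Φ, -, rfl⟩ := Finset.mem_image.1 hx
      exact fun h => hv Φ (Finset.mem_union_left _ h)
    · exact fun Φ => ⟨v Φ, Finset.mem_image_of_mem v (Finset.mem_univ Φ), hv' Φ⟩

end Pool.Agent.Results.MP_dd9835_nt.FiniteTest
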