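import Pool.Agent.U360.RS.Dick

/-!
# MP_dd9835_nt: the sets `T` for which Rubin's conjecture holds are given by Frobenius classes

Let `H / F` be a finite abelian extension of number fields with group `G`, `S` a finite set of
places of `F` which contains the archimedean and the ramified ones, `v_1, ..., v_r` the places of
`S` which split completely, `#S ≥ r + 1`, `w_i` a place over `v_i` (`RubinData`). `Rubin T` is the
statement of Q1 for the set `T`, `Allowed T` the condition on `T`.

There are a finite Galois extension `L / F`, a finite set `bad` of prime ideals, such that all `{v}`,
`v ∉ bad`, are admissible, and a finite list `𝓜` of finite sets of prime ideals outside `bad` with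
the following property. For all nonempty finite sets `T` of prime ideals outside `bad`, `Rubin T`
holds if and only if a set `M ∈ 𝓜` has an injection to `T` which preserves the Frobenius classes
in `L`. In particular `Rubin T` depends only on the Frobenius classes in `L` of the elements of `T`.
-/

set_option autoImplicit false

open NumberField IsDedekindDomain Filter Topology

noncomputable section

namespace Pool.Agent.Results.MP_dd9835_nt.FrobeniusList

open Pool.Agent.K3h30.RS Pool.Agent.U360.RS

/-- The finite description of the sets `T` for which Rubin's conjecture holds. -/
theorem result {F H G : Type} [Field F] [NumberField F] [Field H] [NumberField H] [Algebra F H]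
    [CommGroup G] [Finite G] [MulSemiringAction G H] [IsGaloisGroup G F H]
    (D : RubinData F H G) :
    ∃ (L : Type) (_ : Field L) (_ : NumberField L) (_ : Algebra F L)
      (bad : Finset (HeightOneSpectrum (𝓞 F))), IsGalois F L ∧
      (∀ v, v ∉ bad → D.Allowed {v}) ∧
      ∃ 𝓜 : Finset (Finset (HeightOneSpectrum (𝓞 F))),
        (∀ M ∈ 𝓜, M.Nonempty ∧ Disjoint bad M) ∧
        ∀ T : Finset (HeightOneSpectrum (𝓞 F)), T.Nonempty → Disjoint bad T →
          (D.Rubin T ↔ ∃ M ∈ 𝓜, EmbFrob L M T) :=
  finite_list D

end Pool.Agent.Results.MP_dd9835_nt.FrobeniusList
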