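import Pool.Agent.U360.RS.Dens

/-!
# MP_dd9835_nt: the density of the prime ideals `v` for which Rubin's conjecture holds for `{v}`

Let `H / F` be a finite abelian extension of number fields with group `G`, `S` a finite set of
places of `F` which contains the archimedean and the ramified ones, `v_1, ..., v_r` the places of
`S` which split completely, `#S ≥ r + 1`, `w_i` a place over `v_i` (`RubinData`). `Rubin T` is the
statement of Q1 for the set `T`, `Stark T` Stark's conjecture over `ℚ`, `Allowed T` the condition on
`T`.

The set of the prime ideals `v` such that `{v}` is admissible and `Rubin {v}` holds has a natural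
density `δ`, which is a rational number. It is positive if and only if Stark's conjecture over `ℚ`
is true for `H / F`, `S`, and it is `1` if and only if `Rubin T` holds for all admissible `T`.
-/

set_option autoImplicit false

open NumberField IsDedekindDomain Filter Topology

noncomputable section

namespace Pool.Agent.Results.MP_dd9835_nt.NaturalDensity

open Pool.Agent.K3h30.RS

/-- The natural density of the prime ideals `v` for which Rubin's conjecture holds for `{v}`. -/
theorem result {F H G : Type} [Field F] [NumberField F] [Field H] [NumberField H] [Algebra F H]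
    [CommGroup G] [Finite G] [MulSemiringAction G H] [IsGaloisGroup G F H]
    (D : RubinData F H G) :
    ∃ δ : ℚ, Tendsto (fun X : ℕ => (Nat.card {v : HeightOneSpectrum (𝓞 F) //
        Ideal.absNorm v.asIdeal ≤ X ∧ D.Allowed {v} ∧ D.Rubin {v}} : ℝ) /
        Nat.card {v : HeightOneSpectrum (𝓞 F) // Ideal.absNorm v.asIdeal ≤ X})
        atTop (𝓝 (δ : ℝ)) ∧
      (0 < δ ↔ ∃ T : Finset (HeightOneSpectrum (𝓞 F)), Disjoint D.S T ∧ D.Stark T) ∧
      (δ = 1 ↔ ∀ T : Finset (HeightOneSpectrum (𝓞 F)), D.Allowed T → D.Rubin T) :=
  Pool.Agent.U360.RS.natural_density D

end Pool.Agent.Results.MP_dd9835_nt.NaturalDensity
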